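import Pool.Agent.Helper8_BRW.Stmts

/-!
# Squad BRW, module EXN (helper18): existence for the nonlinear equation by Picard iteration
-/

set_option autoImplicit false

open MeasureTheory Set Filter Topology

namespace BRW.H18

/-- the right hand side of the integral equation -/
noncomputable def Hf (ξ : ℤ → ℝ) (g : ℝ → ℤ → ℝ) (x : ℤ) (s : ℝ) : ℝ :=
  (g s (x + 1) + g s (x - 1)) / 2 + ξ x * (2 * g s x - g s x ^ 2)

/-- the Duhamel map in one column -/
noncomputable def Du (c p : ℝ) (H : ℝ → ℝ) (t : ℝ) : ℝ :=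
  Real.exp (-(c * t)) * (p + ∫ s in (0 : ℝ)..t, Real.exp (c * s) * H s)

theorem iter_notMem (ξ : ℤ → ℝ) (A : Set ℤ) (f : ℤ → ℝ) (n : ℕ) (t : ℝ) (x : ℤ) (hx : x ∉ A) :
    iter ξ A f (n + 1) t x = f x := by
  simp [iter, hx]

theorem iter_mem (ξ : ℤ → ℝ) (A : Set ℤ) (f : ℤ → ℝ) (n : ℕ) (t : ℝ) (x : ℤ) (hx : x ∈ A) :
    iter ξ A f (n + 1) t x = Du (1 + ξ x) (f x) (Hf ξ (iter ξ A f n) x) t := by
  have e : iter ξ A f (n + 1) t x = Real.exp (-((1 + ξ x) * t)) * f x +
        ∫ s in (0 : ℝ)..t, Real.exp (-((1 + ξ x) * (t - s))) *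
          Hf ξ (iter ξ A f n) x s := by
    simp only [iter, hx, if_true, Hf]
  rw [e, Du, mul_add]
  congr 1
  rw [← intervalIntegral.integral_const_mul]
  refine intervalIntegral.integral_congr fun s _ => ?_
  show Real.exp (-((1 + ξ x) * (t - s))) * Hf ξ (iter ξ A f n) x s
    = Real.exp (-((1 + ξ x) * t)) * (Real.exp ((1 + ξ x) * s) * Hf ξ (iter ξ A f n) x s)
  rw [← mul_assoc, ← Real.exp_add]
  congr 2
  ring

/-- derivative of the Duhamel map for continuous `H` -/
theorem du_deriv (c p : ℝ) (H : ℝ → ℝ) (hH : Continuous H) (t : ℝ) :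
    HasDerivAt (Du c p H) (-c * Du c p H t + H t) t := by
  have hK : Continuous fun s => Real.exp (c * s) * H s := by fun_prop
  have h1 : HasDerivAt (fun t => ∫ s in (0 : ℝ)..t, Real.exp (c * s) * H s)
      (Real.exp (c * t) * H t) t :=
    intervalIntegral.integral_hasDerivAt_right (hK.intervalIntegrable _ _)
      (hK.stronglyMeasurableAtFilter _ _) hK.continuousAt
  have h2 : HasDerivAt (fun t : ℝ => Real.exp (-(c * t))) (Real.exp (-(c * t)) * (-c)) t := by
    have : HasDerivAt (fun t : ℝ => -(c * t)) (-c) t := by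
      simpa using ((hasDerivAt_id t).const_mul c).fun_neg
    exact this.exp
  have h3 := h2.fun_mul (h1.const_add p)
  have h4 : HasDerivAt (Du c p H)
      (Real.exp (-(c * t)) * (-c) * (p + ∫ s in (0 : ℝ)..t, Real.exp (c * s) * H s) +
        Real.exp (-(c * t)) * (Real.exp (c * t) * H t)) t := h3
  refine h4.congr_deriv ?_
  have e : Real.exp (-(c * t)) * (Real.exp (c * t) * H t) = H t := by
    rw [← mul_assoc, ← Real.exp_add]; simp
  rw [e, Du]
  ring

/-- monotonicity and bounds of the Duhamel map on `t ≥ 0` -/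
theorem du_mono (c p : ℝ) (H H' : ℝ → ℝ) (hH : ∀ t, IntervalIntegrable H volume 0 t)
    (hH' : ∀ t, IntervalIntegrable H' volume 0 t)
    (t : ℝ) (ht : 0 ≤ t) (h : ∀ s, 0 ≤ s → s ≤ t → H s ≤ H' s) : Du c p H t ≤ Du c p H' t := by
  unfold Du
  have hce : ∀ g : ℝ → ℝ, IntervalIntegrable g volume 0 t →
      IntervalIntegrable (fun s => Real.exp (c * s) * g s) volume 0 t := by
    intro g hg
    exact hg.continuousOn_mul (by fun_prop)
  refine mul_le_mul_of_nonneg_left ?_ (Real.exp_pos _).le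
  refine add_le_add le_rfl ?_
  refine intervalIntegral.integral_mono_on ht (hce _ (hH t)) (hce _ (hH' t)) fun s hs => ?_
  exact mul_le_mul_of_nonneg_left (h s hs.1 hs.2) (Real.exp_pos _).le

theorem du_nonneg (c p : ℝ) (H : ℝ → ℝ) (hp : 0 ≤ p)
    (t : ℝ) (ht : 0 ≤ t) (h : ∀ s, 0 ≤ s → s ≤ t → 0 ≤ H s) : 0 ≤ Du c p H t := by
  unfold Du
  refine mul_nonneg (Real.exp_pos _).le (add_nonneg hp ?_)
  exact intervalIntegral.integral_nonneg ht fun s hs =>
    mul_nonneg (Real.exp_pos _).le (h s hs.1 hs.2)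

theorem du_const (c : ℝ) (t : ℝ) : Du c 1 (fun _ => c) t = 1 := by
  unfold Du
  have h : ∀ s ∈ Set.uIcc (0 : ℝ) t, HasDerivAt (fun s : ℝ => Real.exp (c * s))
      (Real.exp (c * s) * c) s := by
    intro s _
    have : HasDerivAt (fun s : ℝ => c * s) c s := by simpa using (hasDerivAt_id s).const_mul c
    exact this.exp
  rw [intervalIntegral.integral_eq_sub_of_hasDerivAt h
    ((by fun_prop : Continuous fun s : ℝ => Real.exp (c * s) * c).intervalIntegrable _ _)]
  rw [mul_zero, Real.exp_zero]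
  have : (1 : ℝ) + (Real.exp (c * t) - 1) = Real.exp (c * t) := by ring
  rw [this, ← Real.exp_add]
  simp

theorem du_le_one (c p : ℝ) (hp : p ≤ 1) (H : ℝ → ℝ)
    (hH : ∀ t, IntervalIntegrable H volume 0 t)
    (t : ℝ) (ht : 0 ≤ t) (h : ∀ s, 0 ≤ s → s ≤ t → H s ≤ c) : Du c p H t ≤ 1 := by
  have h1 := du_mono c p H (fun _ => c) hH (fun t => intervalIntegrable_const) t ht h
  have h2 : Du c p (fun _ => c) t ≤ Du c 1 (fun _ => c) t := by
    unfold Du
    refine mul_le_mul_of_nonneg_left ?_ (Real.exp_pos _).le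
    linarith
  rw [du_const] at h2
  exact h1.trans h2

section

variable {a b : ℝ} {ξ : ℤ → ℝ} (hE : Env a b ξ) (A : Set ℤ) (f : ℤ → ℝ)
  (hf : ∀ x, 0 ≤ f x ∧ f x ≤ 1)

theorem xi_pos (hE : Env a b ξ) (x : ℤ) : 0 < ξ x := lt_of_lt_of_le hE.1 (hE.2 x).1

theorem iter_cont (n : ℕ) : ∀ x, Continuous fun t => iter ξ A f n t x := by
  induction n with
  | zero => intro x; simp only [iter]; exact continuous_const
  | succ n ih =>
    intro x
    by_cases hx : x ∈ A
    · have hH : Continuous (Hf ξ (iter ξ A f n) x) := by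
        unfold Hf
        have h1 := ih (x + 1)
        have h2 := ih (x - 1)
        have h3 := ih x
        fun_prop
      have e : (fun t => iter ξ A f (n + 1) t x) = Du (1 + ξ x) (f x) (Hf ξ (iter ξ A f n) x) := by
        funext t; exact iter_mem ξ A f n t x hx
      rw [e]
      exact continuous_iff_continuousAt.2 fun t => (du_deriv _ _ _ hH t).continuousAt
    · have e : (fun t => iter ξ A f (n + 1) t x) = fun _ => f x := by
        funext t; exact iter_notMem ξ A f n t x hx
      rw [e]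
      exact continuous_const

theorem hf_cont (n : ℕ) (x : ℤ) : Continuous (Hf ξ (iter ξ A f n) x) := by
  unfold Hf
  have h1 := iter_cont (ξ := ξ) A f n (x + 1)
  have h2 := iter_cont (ξ := ξ) A f n (x - 1)
  have h3 := iter_cont (ξ := ξ) A f n x
  fun_prop

theorem hf_mono (hE : Env a b ξ) (g g' : ℝ → ℤ → ℝ) (s : ℝ) (x : ℤ)
    (h0 : ∀ z, 0 ≤ g s z) (h1 : ∀ z, g s z ≤ g' s z) (h2 : ∀ z, g' s z ≤ 1) :
    Hf ξ g x s ≤ Hf ξ g' x s := by
  unfold Hf
  have hx := xi_pos hE x
  have k1 : g s x * 2 - g s x ^ 2 ≤ g' s x * 2 - g' s x ^ 2 := by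
    nlinarith [h0 x, h1 x, h2 x, mul_nonneg (sub_nonneg.2 (h1 x))
      (by linarith [h2 x, h1 x] : (0 : ℝ) ≤ 2 - g s x - g' s x)]
  have k2 : ξ x * (2 * g s x - g s x ^ 2) ≤ ξ x * (2 * g' s x - g' s x ^ 2) :=
    mul_le_mul_of_nonneg_left (by linarith) hx.le
  linarith [h1 (x + 1), h1 (x - 1)]

theorem hf_nonneg (hE : Env a b ξ) (g : ℝ → ℤ → ℝ) (s : ℝ) (x : ℤ)
    (h0 : ∀ z, 0 ≤ g s z) (h2 : ∀ z, g s z ≤ 1) : 0 ≤ Hf ξ g x s := by
  have := hf_mono hE (fun _ _ => 0) g s x (fun _ => le_rfl) h0 h2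
  simpa [Hf] using this

theorem hf_le (hE : Env a b ξ) (g : ℝ → ℤ → ℝ) (s : ℝ) (x : ℤ)
    (h0 : ∀ z, 0 ≤ g s z) (h2 : ∀ z, g s z ≤ 1) : Hf ξ g x s ≤ 1 + ξ x := by
  have := hf_mono hE g (fun _ _ => 1) s x h0 h2 (fun _ => le_rfl)
  refine this.trans (le_of_eq ?_)
  unfold Hf
  ring

include hE hf in
theorem iter_bd (n : ℕ) : ∀ t x, 0 ≤ t → 0 ≤ iter ξ A f n t x ∧ iter ξ A f n t x ≤ 1 := by
  induction n with
  | zero => intro t x _; simp [iter]
  | succ n ih =>
    intro t x ht
    by_cases hx : x ∈ A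
    · rw [iter_mem ξ A f n t x hx]
      have hc := hf_cont (ξ := ξ) A f n x
      refine ⟨du_nonneg _ _ _ (hf x).1 t ht fun s hs _ => ?_,
        du_le_one _ _ (hf x).2 _ (fun t => hc.intervalIntegrable _ _) t ht fun s hs _ => ?_⟩
      · exact hf_nonneg hE _ s x (fun z => (ih s z hs).1) (fun z => (ih s z hs).2)
      · exact hf_le hE _ s x (fun z => (ih s z hs).1) (fun z => (ih s z hs).2)
    · rw [iter_notMem ξ A f n t x hx]
      exact hf x

include hE hf in
theorem iter_mono (n : ℕ) : ∀ t x, 0 ≤ t → iter ξ A f n t x ≤ iter ξ A f (n + 1) t x := by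
  induction n with
  | zero =>
    intro t x ht
    have := (iter_bd hE A f hf 1 t x ht).1
    simpa [iter] using this
  | succ n ih =>
    intro t x ht
    by_cases hx : x ∈ A
    · rw [iter_mem ξ A f n t x hx, iter_mem ξ A f (n + 1) t x hx]
      refine du_mono _ _ _ _ (fun t => (hf_cont (ξ := ξ) A f n x).intervalIntegrable _ _)
        (fun t => (hf_cont (ξ := ξ) A f (n + 1) x).intervalIntegrable _ _) t ht fun s hs _ => ?_
      exact hf_mono hE _ _ s x (fun z => (iter_bd hE A f hf n s z hs).1) (fun z => ih s z hs)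
        (fun z => (iter_bd hE A f hf (n + 1) s z hs).2)
    · rw [iter_notMem ξ A f n t x hx, iter_notMem ξ A f (n + 1) t x hx]

/-- the solution -/
noncomputable def sol (ξ : ℤ → ℝ) (A : Set ℤ) (f : ℤ → ℝ) (t : ℝ) (x : ℤ) : ℝ :=
  ⨆ n, iter ξ A f n (max t 0) x

include hE hf in
theorem iter_monotone (t : ℝ) (x : ℤ) (ht : 0 ≤ t) : Monotone fun n => iter ξ A f n t x :=
  monotone_nat_of_le_succ fun n => iter_mono hE A f hf n t x ht

include hE hf in
theorem tendsto_sol (t : ℝ) (x : ℤ) :
    Tendsto (fun n => iter ξ A f n (max t 0) x) atTop (𝓝 (sol ξ A f t x)) := by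
  refine tendsto_atTop_ciSup (iter_monotone hE A f hf _ x (le_max_right _ _)) ⟨1, ?_⟩
  rintro _ ⟨n, rfl⟩
  exact (iter_bd hE A f hf n _ x (le_max_right _ _)).2

include hE hf in
theorem sol_bd (t : ℝ) (x : ℤ) : 0 ≤ sol ξ A f t x ∧ sol ξ A f t x ≤ 1 :=
  ⟨ge_of_tendsto' (tendsto_sol hE A f hf t x)
      fun n => (iter_bd hE A f hf n _ x (le_max_right _ _)).1,
    le_of_tendsto' (tendsto_sol hE A f hf t x)
      fun n => (iter_bd hE A f hf n _ x (le_max_right _ _)).2⟩

include hE hf in
theorem sol_meas (x : ℤ) : Measurable fun t => sol ξ A f t x := by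
  refine measurable_of_tendsto_metrizable (f := fun n t => iter ξ A f n (max t 0) x) ?_ ?_
  · intro n
    exact ((iter_cont (ξ := ξ) A f n x).comp (continuous_id.max continuous_const)).measurable
  · rw [tendsto_pi_nhds]
    intro t
    exact tendsto_sol hE A f hf t x

include hE hf in
theorem hfsol_meas (x : ℤ) : Measurable (Hf ξ (sol ξ A f) x) := by
  unfold Hf
  have h1 := sol_meas hE A f hf (x + 1)
  have h2 := sol_meas hE A f hf (x - 1)
  have h3 := sol_meas hE A f hf x
  fun_prop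

include hE hf in
theorem hfsol_bd (x : ℤ) (s : ℝ) :
    0 ≤ Hf ξ (sol ξ A f) x s ∧ Hf ξ (sol ξ A f) x s ≤ 1 + ξ x :=
  ⟨hf_nonneg hE _ s x (fun z => (sol_bd hE A f hf s z).1) (fun z => (sol_bd hE A f hf s z).2),
    hf_le hE _ s x (fun z => (sol_bd hE A f hf s z).1) (fun z => (sol_bd hE A f hf s z).2)⟩

include hE hf in
theorem hfsol_int (x : ℤ) (s t : ℝ) :
    IntervalIntegrable (fun s => Real.exp ((1 + ξ x) * s) * Hf ξ (sol ξ A f) x s) volume s t := by
  have h : IntervalIntegrable (Hf ξ (sol ξ A f) x) volume s t := by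
    refine (intervalIntegrable_const (c := 1 + ξ x)).mono_fun
      (hfsol_meas hE A f hf x).aestronglyMeasurable ?_
    refine Filter.Eventually.of_forall fun r => ?_
    have := hfsol_bd hE A f hf x r
    have h2 : (0 : ℝ) ≤ 1 + ξ x := by linarith [xi_pos hE x]
    simp only [Real.norm_eq_abs]
    rw [abs_of_nonneg this.1, abs_of_nonneg h2]
    exact this.2
  exact h.continuousOn_mul (by fun_prop)

include hE hf in
theorem sol_eq (t : ℝ) (ht : 0 ≤ t) (x : ℤ) (hx : x ∈ A) :
    sol ξ A f t x = Du (1 + ξ x) (f x) (Hf ξ (sol ξ A f) x) t := by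
  have h1 : Tendsto (fun n => iter ξ A f (n + 1) t x) atTop (𝓝 (sol ξ A f t x)) := by
    have := (tendsto_add_atTop_iff_nat 1).2 (tendsto_sol hE A f hf t x)
    rwa [max_eq_left ht] at this
  have h2 : Tendsto (fun n => iter ξ A f (n + 1) t x) atTop
      (𝓝 (Du (1 + ξ x) (f x) (Hf ξ (sol ξ A f) x) t)) := by
    simp_rw [iter_mem ξ A f _ t x hx]
    unfold Du
    refine Tendsto.const_mul _ (Tendsto.const_add _ ?_)
    refine intervalIntegral.tendsto_integral_filter_of_dominated_convergence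
      (fun s => Real.exp ((1 + ξ x) * s) * (1 + ξ x)) ?_ ?_ ?_ ?_
    · refine Filter.Eventually.of_forall fun n => ?_
      have := hf_cont (ξ := ξ) A f n x
      exact (by fun_prop : Continuous fun s => Real.exp ((1 + ξ x) * s) *
        Hf ξ (iter ξ A f n) x s).aestronglyMeasurable
    · refine Filter.Eventually.of_forall fun n => ?_
      refine Filter.Eventually.of_forall fun s hs => ?_
      rw [uIoc_of_le ht] at hs
      have b0 := hf_nonneg hE (iter ξ A f n) s x (fun z => (iter_bd hE A f hf n s z hs.1.le).1)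
        (fun z => (iter_bd hE A f hf n s z hs.1.le).2)
      have b1 := hf_le hE (iter ξ A f n) s x (fun z => (iter_bd hE A f hf n s z hs.1.le).1)
        (fun z => (iter_bd hE A f hf n s z hs.1.le).2)
      rw [Real.norm_eq_abs, abs_of_nonneg (mul_nonneg (Real.exp_pos _).le b0)]
      exact mul_le_mul_of_nonneg_left b1 (Real.exp_pos _).le
    · exact (by fun_prop : Continuous fun s : ℝ => Real.exp ((1 + ξ x) * s) *
        (1 + ξ x)).intervalIntegrable _ _
    · refine Filter.Eventually.of_forall fun s hs => ?_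
      rw [uIoc_of_le ht] at hs
      refine Tendsto.const_mul _ ?_
      have hz : ∀ z, Tendsto (fun n => iter ξ A f n s z) atTop (𝓝 (sol ξ A f s z)) := by
        intro z
        have := tendsto_sol hE A f hf s z
        rwa [max_eq_left hs.1.le] at this
      unfold Hf
      exact (((hz _).add (hz _)).div_const 2).add
        ((((hz x).const_mul 2).sub ((hz x).pow 2)).const_mul _)
  exact tendsto_nhds_unique h1 h2

include hE hf in
theorem sol_notMem (t : ℝ) (x : ℤ) (hx : x ∉ A) : sol ξ A f t x = f x := by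
  have h1 := (tendsto_add_atTop_iff_nat 1).2 (tendsto_sol hE A f hf t x)
  have h2 : (fun n => iter ξ A f (n + 1) (max t 0) x) = fun _ => f x := by
    funext n; exact iter_notMem ξ A f n _ x hx
  have h3 : Tendsto (fun n => iter ξ A f (n + 1) (max t 0) x) atTop (𝓝 (f x)) := by
    rw [h2]; exact tendsto_const_nhds
  exact tendsto_nhds_unique h1 h3

theorem sol_max (t : ℝ) (x : ℤ) : sol ξ A f t x = sol ξ A f (max t 0) x := by
  unfold sol
  rw [max_eq_left (le_max_right t 0)]

include hE hf in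
theorem sol_cont (x : ℤ) : Continuous fun t => sol ξ A f t x := by
  by_cases hx : x ∈ A
  · have hD : Continuous (Du (1 + ξ x) (f x) (Hf ξ (sol ξ A f) x)) := by
      unfold Du
      have := intervalIntegral.continuous_primitive (fun s t => hfsol_int hE A f hf x s t) 0
      exact (by fun_prop : Continuous fun t : ℝ => Real.exp (-((1 + ξ x) * t))).mul
        (continuous_const.add this)
    have e : (fun t => sol ξ A f t x)
        = (Du (1 + ξ x) (f x) (Hf ξ (sol ξ A f) x)) ∘ fun t => max t 0 := by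
      funext t
      rw [Function.comp, sol_max, sol_eq hE A f hf _ (le_max_right _ _) x hx]
    rw [e]
    exact hD.comp (continuous_id.max continuous_const)
  · have e : (fun t => sol ξ A f t x) = fun _ => f x := by
      funext t; exact sol_notMem hE A f hf t x hx
    rw [e]
    exact continuous_const

end

/-- EXN. -/
theorem exn : EXNStmt := by
  intro a b ξ hE A f hf
  refine ⟨sol ξ A f, ?_, ?_⟩
  · refine ⟨fun t x _ => (sol_bd hE A f hf t x).1, fun t x _ => (sol_bd hE A f hf t x).2, ?_,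
      fun t x _ hx => sol_notMem hE A f hf t x hx, ?_⟩
    · intro x
      by_cases hx : x ∈ A
      · rw [sol_eq hE A f hf 0 le_rfl x hx]
        simp [Du]
      · exact sol_notMem hE A f hf 0 x hx
    · intro t x ht hx
      have hH : Continuous (Hf ξ (sol ξ A f) x) := by
        unfold Hf
        have h1 := sol_cont hE A f hf (x + 1)
        have h2 := sol_cont hE A f hf (x - 1)
        have h3 := sol_cont hE A f hf x
        fun_prop
      have h1 := (du_deriv (1 + ξ x) (f x) _ hH t).hasDerivWithinAt (s := Ici 0)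
      have h2 : HasDerivWithinAt (fun s => sol ξ A f s x)
          (-(1 + ξ x) * Du (1 + ξ x) (f x) (Hf ξ (sol ξ A f) x) t + Hf ξ (sol ξ A f) x t)
          (Ici 0) t := by
        refine h1.congr (fun s hs => ?_) ?_
        · exact sol_eq hE A f hf s hs x hx
        · exact sol_eq hE A f hf t ht x hx
      rw [← sol_eq hE A f hf t ht x hx] at h2
      convert h2 using 1
      unfold lap Hf
      ring
  · intro t x ht
    refine ⟨iter_monotone hE A f hf t x ht, ?_⟩
    have := tendsto_sol hE A f hf t x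
    rwa [max_eq_left ht] at this

end BRW.H18
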