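import Pool.Agent.Helper8_BRW.Stmts

/-!
# Squad BRW, module MAX (helper18): the maximum principle
-/

set_option autoImplicit false

open MeasureTheory Set Filter Topology

namespace BRW.H18

/-- One column: a continuous function which is `≤ 0` at the left end and whose right derivative,
where it is positive, is below the derivative of the increasing barrier, stays below it. -/
theorem column (g : ℝ → ℝ) (s0 T : ℝ) (hc : ContinuousOn g (Icc s0 T)) (h0 : g s0 ≤ 0)
    (Bd Bd' : ℝ → ℝ) (hBpos : ∀ r ∈ Icc s0 T, 0 < Bd r)
    (hBd : ∀ r, HasDerivAt Bd (Bd' r) r)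
    (hd : ∀ r, s0 ≤ r → r < T → 0 < g r → ∃ d, HasDerivWithinAt g d (Ici r) r ∧ d < Bd' r) :
    ∀ r ∈ Icc s0 T, g r ≤ Bd r := by
  intro r hr
  have hsub : Icc s0 r ⊆ Icc s0 T := Icc_subset_Icc le_rfl hr.2
  have hBc : Continuous Bd := continuous_iff_continuousAt.2 fun x => (hBd x).continuousAt
  have key : Icc s0 r ⊆ {z | g z ≤ Bd z} := by
    refine IsClosed.Icc_subset_of_forall_mem_nhdsWithin ?_ ?_ ?_
    · have h1 : ContinuousOn (fun z => Bd z - g z) (Icc s0 r) :=
        (hBc.continuousOn).sub (hc.mono hsub)
      have h2 := h1.preimage_isClosed_of_isClosed isClosed_Icc (isClosed_Ici (a := (0 : ℝ)))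
      have h3 : {z | g z ≤ Bd z} ∩ Icc s0 r = Icc s0 r ∩ (fun z => Bd z - g z) ⁻¹' Ici 0 := by
        ext z
        simp only [mem_inter_iff, mem_ofPred_eq, mem_preimage, mem_Ici, sub_nonneg]
        exact and_comm
      rw [h3]
      exact h2
    · have hs0 : s0 ∈ Icc s0 T := ⟨le_rfl, hr.1.trans hr.2⟩
      exact h0.trans (hBpos s0 hs0).le
    · rintro z ⟨hz, hzI⟩
      have hzT : z < T := lt_of_lt_of_le hzI.2 hr.2
      have hzI' : z ∈ Icc s0 T := ⟨hzI.1, hzT.le⟩
      rcases lt_or_eq_of_le (show g z ≤ Bd z from hz) with hlt | heq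
      · -- strict inequality: continuity
        have hcz : ContinuousWithinAt g (Icc s0 T) z := hc z hzI'
        have hcz2 : ContinuousWithinAt g (Ioi z) z := by
          refine hcz.mono_of_mem_nhdsWithin ?_
          have : Ioo z T ∈ 𝓝[>] z := Ioo_mem_nhdsGT hzT
          exact mem_of_superset this fun y hy => ⟨hzI.1.trans hy.1.le, hy.2.le⟩
        have hBz : ContinuousWithinAt Bd (Ioi z) z := hBc.continuousWithinAt
        have : ∀ᶠ y in 𝓝[>] z, g y < Bd y := hcz2.eventually_lt hBz hlt
        exact this.mono fun y hy => le_of_lt hy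
      · have hpos : 0 < g z := by rw [heq]; exact hBpos z hzI'
        obtain ⟨d, hdd, hdlt⟩ := hd z hzI.1 hzT hpos
        have hD : HasDerivWithinAt (fun y => Bd y - g y) (Bd' z - d) (Ici z) z :=
          (hBd z).hasDerivWithinAt.sub hdd
        have hD2 : HasDerivWithinAt (fun y => Bd y - g y) (Bd' z - d) (Ioi z) z :=
          hD.mono Ioi_subset_Ici_self
        have hsl := (hasDerivWithinAt_iff_tendsto_slope' (lt_irrefl z : z ∉ Ioi z)).1 hD2
        have hev : ∀ᶠ y in 𝓝[>] z, 0 < slope (fun y => Bd y - g y) z y :=
          hsl.eventually (lt_mem_nhds (by linarith))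
        have hev2 : ∀ᶠ y in 𝓝[>] z, z < y := self_mem_nhdsWithin
        filter_upwards [hev, hev2] with y hy hzy
        rw [slope_def_field] at hy
        have h5 : 0 < y - z := sub_pos.2 hzy
        have h6 : 0 < (Bd y - g y) - (Bd z - g z) := by
          by_contra hcon
          have : ((Bd y - g y) - (Bd z - g z)) / (y - z) ≤ 0 :=
            div_nonpos_of_nonpos_of_nonneg (not_lt.1 hcon) h5.le
          linarith
        have h7 : Bd z - g z = 0 := by rw [heq]; ring
        show g y ≤ Bd y
        linarith
  exact key ⟨hr.1, le_rfl⟩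

/-- MAX. -/
theorem maxP : MaxStmt := by
  intro δ T C B s hC hs hB h0 hc hd
  set B' : ℝ := max B 0 with hB'
  have hB'0 : 0 ≤ B' := le_max_right _ _
  set c : ℝ := C + 1 with hcdef
  have hc0 : 0 < c := by linarith
  have claim : ∀ k : ℕ, ∀ t x, 0 ≤ t → t ≤ T → δ t x ≤ B' * ((c * t) ^ k / k.factorial) := by
    intro k
    induction k with
    | zero =>
      intro t x ht htT
      simp only [pow_zero, Nat.factorial_zero, Nat.cast_one, div_one, mul_one]
      exact (hB t x ht htT).trans (le_max_left _ _)
    | succ k ih =>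
      intro t x ht htT
      by_cases hts : t ≤ s x
      · refine (h0 t x ht htT hts).trans ?_
        positivity
      rw [not_le] at hts
      -- compare with the barrier plus ε
      have main : ∀ ε : ℝ, 0 < ε →
          δ t x ≤ B' * ((c * t) ^ (k + 1) / (k + 1).factorial) + ε * (1 + t) := by
        intro ε hε
        have hder : ∀ r : ℝ, HasDerivAt
            (fun r => B' * ((c * r) ^ (k + 1) / (k + 1).factorial) + ε * (1 + r))
            (B' * (c * ((c * r) ^ k / k.factorial)) + ε) r := by
          intro r
          have e1 : HasDerivAt (fun r : ℝ => c * r) c r := by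
            simpa using (hasDerivAt_id r).const_mul c
          have e2 : HasDerivAt (fun r : ℝ => (c * r) ^ (k + 1))
              (((k + 1 : ℕ) : ℝ) * (c * r) ^ k * c) r := by
            simpa using e1.fun_pow (k + 1)
          have e3 := (e2.div_const ((k + 1).factorial : ℝ)).const_mul B'
          have e4 : HasDerivAt (fun r : ℝ => ε * (1 + r)) ε r := by
            simpa using ((hasDerivAt_id r).const_add 1).const_mul ε
          refine (e3.fun_add e4).congr_deriv ?_
          have hk : ((k + 1).factorial : ℝ) = ((k + 1 : ℕ) : ℝ) * (k.factorial : ℝ) := by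
            rw [Nat.factorial_succ]; push_cast; ring
          have hk0 : (k.factorial : ℝ) ≠ 0 := by positivity
          have hk1 : ((k + 1 : ℕ) : ℝ) ≠ 0 := by positivity
          rw [hk]
          field_simp
        refine column (fun r => δ r x) (s x) T (hc x) ?_
          (fun r => B' * ((c * r) ^ (k + 1) / (k + 1).factorial) + ε * (1 + r))
          (fun r => B' * (c * ((c * r) ^ k / k.factorial)) + ε) ?_ hder ?_ t ⟨hts.le, htT⟩
        · exact h0 (s x) x (hs x) (hts.le.trans htT) le_rfl
        · intro r hr
          have hr0 : 0 ≤ r := (hs x).trans hr.1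
          have h1 : 0 ≤ B' * ((c * r) ^ (k + 1) / (k + 1).factorial) := by positivity
          have h2 : 0 < ε * (1 + r) := by positivity
          linarith
        · intro r hr1 hr2 hpos
          obtain ⟨d, hdd, hdle⟩ := hd r x hr1 hr2 hpos
          refine ⟨d, hdd, ?_⟩
          have hr0 : 0 ≤ r := (hs x).trans hr1
          have hb0 : 0 ≤ B' * ((c * r) ^ k / k.factorial) := by positivity
          have n1 : max (δ r (x + 1)) 0 ≤ B' * ((c * r) ^ k / k.factorial) :=
            max_le (ih r (x + 1) hr0 hr2.le) hb0
          have n2 : max (δ r (x - 1)) 0 ≤ B' * ((c * r) ^ k / k.factorial) :=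
            max_le (ih r (x - 1) hr0 hr2.le) hb0
          have n3 : C * δ r x ≤ C * (B' * ((c * r) ^ k / k.factorial)) :=
            mul_le_mul_of_nonneg_left (ih r x hr0 hr2.le) hC
          have e : B' * (c * ((c * r) ^ k / k.factorial))
              = B' * ((c * r) ^ k / k.factorial) + C * (B' * ((c * r) ^ k / k.factorial)) := by
            rw [hcdef]; ring
          rw [e]
          linarith
      refine le_of_forall_pos_le_add fun η hη => ?_
      have h1t : 0 < 1 + t := by linarith
      have := main (η / (1 + t)) (by positivity)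
      have e : η / (1 + t) * (1 + t) = η := by field_simp
      rw [e] at this
      exact this
  intro t x ht htT
  have hlim : Tendsto (fun k : ℕ => B' * ((c * t) ^ k / k.factorial)) atTop (𝓝 (B' * 0)) :=
    (FloorSemiring.tendsto_pow_div_factorial_atTop (c * t)).const_mul B'
  rw [mul_zero] at hlim
  exact ge_of_tendsto' hlim fun k => claim k t x ht htT

end BRW.H18
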